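import Pool.Agent.L5helper68.BS.Th

/-! The coniveau spectral sequence. -/

set_option autoImplicit false

open CategoryTheory AlgebraicGeometry Opposite

namespace Pool.Agent.L5helper68.BS

variable {H : ℤ → ℤ → Scheme.{0}ᵒᵖ ⥤ AddCommGrpCat.{0}}

lemma charZero_residue {F : Type} [Field F] [CharZero F] (X : Over (Sp F)) (x : X.left) :
    CharZero (X.left.residueField x) := by
  let φ : CommRingCat.of F ⟶ X.left.residueField x :=
    Spec.preimage (X.left.fromSpecResidueField x ≫ X.hom)
  exact charZero_of_injective_ringHom (f := φ.hom) φ.hom.injective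

lemma smooth_of_field (hH : IsMotivicCohomology H) {k j : ℤ} {F : Type} [Field F] [CharZero F]
    (h : ∀ (k' j' : ℤ), k' ≤ k → j' ≤ j → ∀ (K : Type) [Field K] [CharZero K],
      Zero H k' j' (Sp K)) (X : Over (Sp F)) (h1 : Smooth X.hom) (h2 : QuasiCompact X.hom)
    (h3 : IsSeparated X.hom) : Zero H k j X.left := by
  refine hH.coniveau F k j X h1 h2 h3 fun x p _ => ?_
  have := charZero_residue X x
  exact h (k - 2 * p) (j - p) (by omega) (by omega) (X.left.residueField x)

lemma exists_hom_aux {A : Type} [CommRing A] [IsDomain A] {K : Type} [Field K] (ψ : A →+* K)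
    (hψ : Function.Injective ψ) (P : Ideal A) [P.IsPrime] (B : Type) [CommRing B] [IsLocalRing B]
    [Algebra A B] [IsLocalization.AtPrime B P] (hx : ringKrullDim B = (0 : ℕ)) :
    Nonempty (IsLocalRing.ResidueField B →+* K) := by
  have h1 := IsLocalization.AtPrime.ringKrullDim_eq_height P B
  rw [h1] at hx
  have h2 : P.height = 0 := by exact_mod_cast hx
  have h3 : P = ⊥ := Ideal.height_eq_zero_iff_eq_bot.1 h2
  have h4 : ∀ y : P.primeCompl, IsUnit (ψ y) := by
    rintro ⟨y, hy⟩
    rw [isUnit_iff_ne_zero]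
    intro h
    apply hy
    rw [(injective_iff_map_eq_zero ψ).1 hψ y h]
    exact zero_mem _
  let g : B →+* K := IsLocalization.lift (M := P.primeCompl) h4
  have : IsLocalHom g := by
    constructor
    intro a ha
    obtain ⟨b, s, rfl⟩ := IsLocalization.exists_mk'_eq P.primeCompl a
    have hb : b ≠ 0 := by
      rintro rfl
      rw [IsLocalization.mk'_zero, map_zero] at ha
      exact not_isUnit_zero ha
    have hb' : b ∈ P.primeCompl := by
      intro h
      rw [SetLike.mem_coe, h3] at h
      exact hb h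
    rw [IsLocalization.mk'_eq_mul_mk'_one]
    refine IsUnit.mul (IsLocalization.map_units _ (⟨b, hb'⟩ : P.primeCompl)) ?_
    refine IsUnit.of_mul_eq_one (algebraMap A _ s) ?_
    rw [mul_comm, ← IsLocalization.mk'_eq_mul_mk'_one]
    exact IsLocalization.mk'_self _ _
  exact ⟨IsLocalRing.ResidueField.lift g⟩

lemma exists_residue_hom {A : Type} [CommRing A] [IsDomain A] {K : Type} [Field K] (ψ : A →+* K)
    (hψ : Function.Injective ψ) (x : Sp A)
    (hx : ringKrullDim ((Sp A).presheaf.stalk x) = (0 : ℕ)) :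
    Nonempty ((Sp A).residueField x →+* K) := by
  let k : Algebra (CommRingCat.of A) ((Sp A).presheaf.stalk x) :=
    StructureSheaf.stalkAlgebra (CommRingCat.of A) x
  have hp : (PrimeSpectrum.asIdeal x).IsPrime := x.isPrime
  have h1 : IsLocalization.AtPrime ((Sp A).presheaf.stalk x) (PrimeSpectrum.asIdeal x) :=
    StructureSheaf.IsLocalization.to_stalk (CommRingCat.of A) x
  exact @exists_hom_aux A _ _ K _ ψ hψ (PrimeSpectrum.asIdeal x) x.isPrime
    ((Sp A).presheaf.stalk x) _ _ k h1 hx

end Pool.Agent.L5helper68.BS
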