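import Mathlib

/-! Every polynomial with integer coefficients is the determinant of a matrix with entries `0`, `1`,
`-1` and variables. -/

set_option autoImplicit false

namespace Pool.Agent.L5helper68.BS

open Matrix MvPolynomial

variable {R : Type} [CommRing R] {σ : Type}

/-- the entry is one of `0, 1, -1` or a variable -/
def IsEntry (a : MvPolynomial σ R) : Prop := a = 0 ∨ a = 1 ∨ a = -1 ∨ ∃ i, a = X i

/-- `f = uᵀ (1 + T)⁻¹ v`, written with an explicit inverse `W` -/
def Rep (f : MvPolynomial σ R) : Prop :=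
  ∃ (ι : Type) (_ : Fintype ι) (_ : DecidableEq ι) (A W : Matrix ι ι (MvPolynomial σ R))
    (u v : ι → MvPolynomial σ R), (∀ i j, IsEntry (A i j)) ∧ (∀ i, u i = 0 ∨ u i = 1 ∨ u i = -1) ∧
    (∀ i, v i = 0 ∨ v i = 1 ∨ v i = -1) ∧ A * W = 1 ∧ A.det = 1 ∧ u ⬝ᵥ (W *ᵥ v) = f

lemma isEntry_of {a : MvPolynomial σ R} (h : a = 0 ∨ a = 1 ∨ a = -1) : IsEntry a := by
  rcases h with h | h | h
  · exact .inl h
  · exact .inr (.inl h)
  · exact .inr (.inr (.inl h))

lemma rep_const (a : MvPolynomial σ R) (ha : a = 0 ∨ a = 1 ∨ a = -1) : Rep a :=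
  ⟨Unit, inferInstance, inferInstance, 1, 1, fun _ => a, fun _ => 1,
    fun i j => .inr (.inl (by rw [Subsingleton.elim i j, one_apply_eq])), fun _ => ha,
    fun _ => .inr (.inl rfl), by simp, by simp, by simp [dotProduct, mulVec]⟩

lemma rep_X (i : σ) : Rep (X i : MvPolynomial σ R) := by
  refine ⟨Fin 2, inferInstance, inferInstance, !![1, X i; 0, 1], !![1, -X i; 0, 1],
    ![1, 0], ![0, -1], ?_, ?_, ?_, ?_, ?_, ?_⟩
  · intro a b
    fin_cases a <;> fin_cases b
    · exact .inr (.inl rfl)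
    · exact .inr (.inr (.inr ⟨i, rfl⟩))
    · exact .inl rfl
    · exact .inr (.inl rfl)
  · intro a; fin_cases a <;> simp
  · intro a; fin_cases a <;> simp
  · ext a b; fin_cases a <;> fin_cases b <;> simp [Matrix.mul_apply, Fin.sum_univ_two]
  · simp [det_fin_two]
  · simp [dotProduct, mulVec, Fin.sum_univ_two]

lemma rep_add {f g : MvPolynomial σ R} (hf : Rep f) (hg : Rep g) : Rep (f + g) := by
  obtain ⟨ι, _, _, A, W, u, v, hA, hu, hv, hW, hd, h⟩ := hf
  obtain ⟨κ, _, _, B, Z, s, t, hB, hs, ht, hZ, he, k⟩ := hg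
  refine ⟨ι ⊕ κ, inferInstance, inferInstance, fromBlocks A 0 0 B, fromBlocks W 0 0 Z,
    Sum.elim u s, Sum.elim v t, ?_, ?_, ?_, ?_, ?_, ?_⟩
  · rintro (a | a) (b | b)
    · exact hA a b
    · exact .inl rfl
    · exact .inl rfl
    · exact hB a b
  · rintro (a | a)
    · exact hu a
    · exact hs a
  · rintro (a | a)
    · exact hv a
    · exact ht a
  · simp [fromBlocks_multiply, hW, hZ, ← fromBlocks_one]
  · simp [det_fromBlocks_zero₂₁, hd, he]
  · simp [fromBlocks_mulVec, h, k, sumElim_dotProduct_sumElim]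

lemma rep_mul {f g : MvPolynomial σ R} (hf : Rep f) (hg : Rep g) : Rep (f * g) := by
  obtain ⟨ι, _, _, A, W, u, v, hA, hu, hv, hW, hd, h⟩ := hf
  obtain ⟨κ, _, _, B, Z, s, t, hB, hs, ht, hZ, he, k⟩ := hg
  refine ⟨ι ⊕ κ, inferInstance, inferInstance, fromBlocks A (-(vecMulVec v s)) 0 B,
    fromBlocks W (W * vecMulVec v s * Z) 0 Z, Sum.elim u 0, Sum.elim 0 t, ?_, ?_, ?_, ?_, ?_, ?_⟩
  · rintro (a | a) (b | b)
    · exact hA a b
    · change IsEntry (-(v a * s b))
      rcases hv a with h1 | h1 | h1 <;> rcases hs b with h2 | h2 | h2 <;> rw [h1, h2] <;>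
        simp [IsEntry]
    · exact .inl rfl
    · exact hB a b
  · rintro (a | a)
    · exact hu a
    · exact .inl rfl
  · rintro (a | a)
    · exact .inl rfl
    · exact ht a
  · rw [fromBlocks_multiply, ← fromBlocks_one]
    congr 1
    · simp [hW]
    · rw [Matrix.mul_assoc W, ← Matrix.mul_assoc A, hW]; simp
    · simp
    · simp [hZ]
  · simp [det_fromBlocks_zero₂₁, hd, he]
  · rw [fromBlocks_mulVec]
    simp only [mulVec_zero, zero_add, sumElim_dotProduct_sumElim, zero_dotProduct, add_zero,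
      Sum.elim_comp_inl, Sum.elim_comp_inr]
    rw [← mulVec_mulVec, ← mulVec_mulVec, vecMulVec_mulVec, ← h, ← k]
    simp [mulVec_smul, mul_comm]

/-- a determinant with entries `0, 1, -1` and variables -/
theorem exists_det {f : MvPolynomial σ R} (hf : Rep f) :
    ∃ (N : ℕ) (M : Matrix (Fin N) (Fin N) (MvPolynomial σ R)), (∀ i j, IsEntry (M i j)) ∧
      M.det = -f := by
  obtain ⟨ι, _, _, A, W, u, v, hA, hu, hv, hW, hd, h⟩ := hf
  let M : Matrix (ι ⊕ Unit) (ι ⊕ Unit) (MvPolynomial σ R) :=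
    fromBlocks A (replicateCol Unit v) (replicateRow Unit u) 0
  let e := Fintype.equivFin (ι ⊕ Unit)
  refine ⟨_, M.submatrix e.symm e.symm, ?_, ?_⟩
  · intro i j
    rw [submatrix_apply]
    rcases e.symm i with a | a <;> rcases e.symm j with b | b
    · exact hA a b
    · exact isEntry_of (hv a)
    · exact isEntry_of (hu b)
    · exact .inl rfl
  · rw [det_submatrix_equiv_self]
    let _ : Invertible A := ⟨W, mul_eq_one_comm.1 hW, hW⟩
    have h1 : ⅟A = W := rfl
    rw [show M = fromBlocks A (replicateCol Unit v) (replicateRow Unit u) 0 from rfl,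
      det_fromBlocks₁₁, hd, h1, one_mul, zero_sub]
    simp only [det_unique, Matrix.neg_apply]
    rw [← h]
    congr 1
    rw [Matrix.mul_assoc, Matrix.mul_apply]
    simp only [dotProduct, replicateRow_apply, mulVec, replicateCol_apply, Matrix.mul_apply]

theorem rep_int (f : MvPolynomial σ ℤ) : Rep (map (Int.castRingHom R) f) := by
  induction f using MvPolynomial.induction_on with
  | C a =>
    rw [map_C]
    induction a using Int.induction_on with
    | zero => simpa using rep_const (0 : MvPolynomial σ R) (.inl rfl)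
    | succ n ih =>
      have h := rep_add ih (rep_const (1 : MvPolynomial σ R) (.inr (.inl rfl)))
      simpa using h
    | pred n ih =>
      have h := rep_add ih (rep_const (-1 : MvPolynomial σ R) (.inr (.inr rfl)))
      simpa [sub_eq_add_neg] using h
  | add f g hf hg => rw [map_add]; exact rep_add hf hg
  | mul_X f i hf => rw [map_mul, map_X]; exact rep_mul hf (rep_X i)

end Pool.Agent.L5helper68.BS
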