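import Pool.Agent.L5helper68.BS.Fld

/-! A finitely generated field of characteristic zero is `ℚ(t_1, …, t_m)[t] / (f)`. -/

set_option autoImplicit false

namespace Pool.Agent.L5helper68.BS

open MvPolynomial IntermediateField

attribute [-instance] DivisionRing.toRatAlgebra in
theorem exists_adjoinRoot {L : Type} [Field L] [CharZero L] (S : Set L) (hS : S.Finite)
    (hL : Subfield.closure S = ⊤) :
    ∃ (m : ℕ) (f : Polynomial (QK m)), Irreducible f ∧ Nonempty (L →+* AdjoinRoot f) := by
  classical
  let _ : Algebra ℚ L := DivisionRing.toRatAlgebra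
  have hadj : Algebra.IsAlgebraic (Algebra.adjoin ℚ S) L := by
    refine ⟨fun a => ?_⟩
    have h1 : ∀ b : L, IsAlgebraic (Algebra.adjoin ℚ S) b := by
      intro b
      have hb : b ∈ Subfield.closure S := by rw [hL]; trivial
      induction hb using Subfield.closure_induction with
      | mem x hx =>
        exact isAlgebraic_algebraMap (⟨x, Algebra.subset_adjoin hx⟩ : Algebra.adjoin ℚ S)
      | one => exact isAlgebraic_one
      | add x y _ _ hx hy => exact hx.add hy
      | neg x _ hx => exact hx.neg
      | inv x _ hx => exact hx.inv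
      | mul x y _ _ hx hy => exact hx.mul hy
    exact h1 a
  obtain ⟨t, htS, ht⟩ := exists_isTranscendenceBasis_subset (R := ℚ) (A := L) S
  have htf : t.Finite := hS.subset htS
  have : Finite t := htf
  obtain ⟨m, ⟨em⟩⟩ := Finite.exists_equiv_fin t
  let x : Fin m → L := fun i => (em.symm i : L)
  have hx : IsTranscendenceBasis ℚ x := ht.comp_equiv em.symm
  have halg := hx.isAlgebraic_field
  let e := hx.1.aevalEquivField
  let e' : QK m →+* IntermediateField.adjoin ℚ (Set.range x) :=
    (e.toAlgHom.toRingHom : QN m →+* _).comp (qk m : QK m →+* QN m)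
  let φ : QK m →+* L :=
    (IntermediateField.val (IntermediateField.adjoin ℚ (Set.range x))).toRingHom.comp e'
  let _ : Algebra (QK m) L := φ.toAlgebra
  have halg' : Algebra.IsAlgebraic (QK m) L :=
    Algebra.IsAlgebraic.of_ringHom_of_comp_eq (S := IntermediateField.adjoin ℚ (Set.range x))
      (B := L) (f := e') (g := RingHom.id L) (e.surjective.comp (qk m).surjective)
      Function.injective_id rfl
  have hfin : Finite S := hS
  have h2 : FiniteDimensional (QK m) (IntermediateField.adjoin (QK m) S) :=
    IntermediateField.finiteDimensional_adjoin fun y _ =>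
      (Algebra.IsAlgebraic.isAlgebraic y).isIntegral
  have h3 : IntermediateField.adjoin (QK m) S = ⊤ := by
    rw [eq_top_iff]
    intro y _
    have hy : y ∈ Subfield.closure S := by rw [hL]; trivial
    have : Subfield.closure S ≤ (IntermediateField.adjoin (QK m) S).toSubfield :=
      Subfield.closure_le.2 (IntermediateField.subset_adjoin _ _)
    exact this hy
  rw [h3] at h2
  have h4 : FiniteDimensional (QK m) L :=
    LinearEquiv.finiteDimensional (IntermediateField.topEquiv (F := QK m) (E := L)).toLinearEquiv
  have : CharZero (QK m) := inferInstance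
  obtain ⟨α, hα⟩ := Field.exists_primitive_element (QK m) L
  have hi : IsIntegral (QK m) α := (Algebra.IsAlgebraic.isAlgebraic α).isIntegral
  refine ⟨m, minpoly (QK m) α, minpoly.irreducible hi, ⟨?_⟩⟩
  let e1 := (IntermediateField.adjoinRootEquivAdjoin (QK m) hi).symm
  let e2 : L →ₐ[QK m] (QK m)⟮α⟯ :=
    (IntermediateField.equivOfEq hα.symm).toAlgHom.comp IntermediateField.topEquiv.symm.toAlgHom
  exact (e1.toAlgHom.comp e2).toRingHom

end Pool.Agent.L5helper68.BS
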