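import Pool.Agent.L5helper68.BS.Det
import Pool.Agent.W552.Emb

/-! Finitely generated fields of characteristic zero and rational function fields. -/

set_option autoImplicit false

namespace Pool.Agent.L5helper68.BS

open MvPolynomial

/-- `ℚ(t_1, …, t_m)` -/
abbrev QN (m : ℕ) : Type := FractionRing (MvPolynomial (Fin m) ℚ)

/-- `ℚ(t_1, t_2, …)` -/
abbrev QInf : Type := FractionRing (MvPolynomial ℕ ℚ)

/-- a copy of `ℚ(t_1, …, t_m)` -/
def QK (m : ℕ) : Type := QN m

noncomputable instance (m : ℕ) : Field (QK m) := inferInstanceAs (Field (QN m))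

/-- the identity -/
noncomputable def qk (m : ℕ) : QK m ≃+* QN m := RingEquiv.refl _

instance (m : ℕ) : CharZero (QK m) :=
  charZero_of_injective_ringHom (f := (((qk m).symm : QN m ≃+* QK m) : QN m →+* QK m))
    (qk m).symm.injective

/-- `ℚ[t_1, …, t_m] → ℚ(t_1, …, t_m)` -/
noncomputable def mk (m : ℕ) : MvPolynomial (Fin m) ℚ →+* QK m :=
  ((qk m).symm : QN m →+* QK m).comp (algebraMap _ _)

lemma mk_inj (m : ℕ) : Function.Injective (mk m) :=
  (qk m).symm.injective.comp (IsFractionRing.injective _ _)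

lemma mk_div (m : ℕ) (a : QK m) : ∃ x y, a = mk m x / mk m y := by
  obtain ⟨x, y, hy, h⟩ := IsFractionRing.div_surjective (A := MvPolynomial (Fin m) ℚ) (qk m a)
  refine ⟨x, y, ?_⟩
  have h2 := congrArg (qk m).symm h
  rw [RingEquiv.symm_apply_apply, map_div₀] at h2
  exact h2.symm

/-- the ring homomorphism `ℚ[t_1, …, t_{m+1}] → ℚ(t_1, …, t_m)(t)` -/
noncomputable def preS (m : ℕ) : MvPolynomial (Fin (m + 1)) ℚ →+* RatFunc (QK m) :=
  (algebraMap (Polynomial (QK m)) (RatFunc (QK m))).comp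
    ((Polynomial.mapRingHom (mk m)).comp
      (finSuccEquiv ℚ m : MvPolynomial (Fin (m + 1)) ℚ →+* Polynomial (MvPolynomial (Fin m) ℚ)))

lemma preS_inj (m : ℕ) : Function.Injective (preS m) := by
  unfold preS
  simp only [RingHom.coe_comp]
  refine (IsFractionRing.injective _ _).comp (Function.Injective.comp ?_ ?_)
  · exact Polynomial.map_injective _ (mk_inj m)
  · exact (finSuccEquiv ℚ m).injective

/-- `ℚ(t_1, …, t_{m+1}) → ℚ(t_1, …, t_m)(t)` -/
noncomputable def toS (m : ℕ) : QN (m + 1) →+* RatFunc (QK m) :=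
  IsFractionRing.lift (preS_inj m)

lemma toS_surj (m : ℕ) : Function.Surjective (toS m) := by
  have hA : ∀ a : MvPolynomial (Fin m) ℚ, ∃ z, toS m z = RatFunc.C (mk m a) := by
    intro a
    refine ⟨algebraMap _ _ ((finSuccEquiv ℚ m).symm (Polynomial.C a)), ?_⟩
    rw [toS, IsFractionRing.lift_algebraMap]
    simp [preS]
  have hK : ∀ a : QK m, ∃ z, toS m z = RatFunc.C a := by
    intro a
    obtain ⟨x, y, rfl⟩ := mk_div m a
    obtain ⟨u, hu⟩ := hA x
    obtain ⟨v, hv⟩ := hA y
    exact ⟨u / v, by rw [map_div₀, hu, hv, ← map_div₀]⟩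
  have hP : ∀ p : Polynomial (QK m), ∃ z, toS m z = algebraMap _ _ p := by
    intro p
    induction p using Polynomial.induction_on' with
    | add p q hp hq =>
      obtain ⟨u, hu⟩ := hp
      obtain ⟨v, hv⟩ := hq
      exact ⟨u + v, by rw [map_add, hu, hv, map_add]⟩
    | monomial n a =>
      obtain ⟨u, hu⟩ := hK a
      refine ⟨u * (algebraMap _ _ ((finSuccEquiv ℚ m).symm Polynomial.X)) ^ n, ?_⟩
      rw [map_mul, map_pow, hu, toS, IsFractionRing.lift_algebraMap,
        ← Polynomial.C_mul_X_pow_eq_monomial]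
      simp [preS]
  intro z
  obtain ⟨x, y, hy, rfl⟩ := IsFractionRing.div_surjective (A := Polynomial (QK m)) z
  obtain ⟨u, hu⟩ := hP x
  obtain ⟨v, hv⟩ := hP y
  exact ⟨u / v, by rw [map_div₀, hu, hv]⟩

/-- `ℚ(t_1, …, t_{m+1}) ≃ ℚ(t_1, …, t_m)(t)` -/
noncomputable def eqS (m : ℕ) : QN (m + 1) ≃+* RatFunc (QK m) :=
  RingEquiv.ofBijective (toS m) ⟨(toS m).injective, toS_surj m⟩

lemma rename_inj (m : ℕ) : Function.Injective
    ((algebraMap (MvPolynomial ℕ ℚ) QInf).comp
      (rename (Fin.val : Fin m → ℕ) : MvPolynomial (Fin m) ℚ →ₐ[ℚ] MvPolynomial ℕ ℚ).toRingHom) := by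
  simp only [RingHom.coe_comp]
  exact (IsFractionRing.injective _ _).comp (rename_injective _ Fin.val_injective)

/-- `ℚ(t_1, …, t_m) → ℚ(t_1, t_2, …)` -/
noncomputable def toInf (m : ℕ) : QN m →+* QInf := IsFractionRing.lift (rename_inj m)

lemma toInf_algebraMap (m : ℕ) (a : MvPolynomial (Fin m) ℚ) :
    toInf m (algebraMap _ _ a) = algebraMap _ _ (rename Fin.val a) := by
  rw [toInf, IsFractionRing.lift_algebraMap]; rfl

lemma mem_range_toInf {m : ℕ} {a b : MvPolynomial ℕ ℚ} (ha : ∀ i ∈ a.vars, i < m)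
    (hb : ∀ i ∈ b.vars, i < m) :
    algebraMap (MvPolynomial ℕ ℚ) QInf a / algebraMap _ _ b ∈ (toInf m).fieldRange := by
  have h : ∀ c : MvPolynomial ℕ ℚ, (∀ i ∈ c.vars, i < m) →
      algebraMap (MvPolynomial ℕ ℚ) QInf c ∈ (toInf m).fieldRange := by
    intro c hc
    obtain ⟨q, hq⟩ := exists_rename_eq_of_vars_subset_range c (Fin.val : Fin m → ℕ)
      Fin.val_injective (fun i hi => ⟨⟨i, hc i hi⟩, rfl⟩)
    exact ⟨algebraMap _ _ q, by rw [toInf_algebraMap, hq]⟩
  exact div_mem (h a ha) (h b hb)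

/-- every finite set of elements of `ℚ(t_1, t_2, …)` involves finitely many variables -/
lemma exists_bound (S : Set QInf) (hS : S.Finite) :
    ∃ m : ℕ, Subfield.closure S ≤ (toInf m).fieldRange := by
  classical
  have h1 : ∀ x : QInf, ∃ m : ℕ, ∀ m' ≥ m, x ∈ (toInf m').fieldRange := by
    intro x
    obtain ⟨a, b, -, rfl⟩ := IsFractionRing.div_surjective (A := MvPolynomial ℕ ℚ) x
    refine ⟨a.vars.sup id + b.vars.sup id + 1, fun m' hm => mem_range_toInf ?_ ?_⟩
    · intro i hi
      have := Finset.le_sup (f := id) hi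
      simp only [id] at this
      omega
    · intro i hi
      have := Finset.le_sup (f := id) hi
      simp only [id] at this
      omega
  choose g hg using h1
  refine ⟨hS.toFinset.sup g, Subfield.closure_le.2 fun x hx => hg x _ ?_⟩
  exact Finset.le_sup (f := g) (hS.mem_toFinset.2 hx)

/-- a finitely generated subfield of `ℚ(t_1, t_2, …)` embeds into some `ℚ(t_1, …, t_m)` -/
lemma exists_emb_closure (S : Set QInf) (hS : S.Finite) :
    ∃ m : ℕ, Nonempty (Subfield.closure S →+* QN m) := by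
  obtain ⟨m, hm⟩ := exists_bound S hS
  refine ⟨m, ⟨?_⟩⟩
  have e : QN m ≃+* (toInf m).fieldRange :=
    RingEquiv.ofBijective (toInf m).rangeRestrictField
      ⟨(toInf m).rangeRestrictField.injective, by rintro ⟨_, x, rfl⟩; exact ⟨x, rfl⟩⟩
  exact (e.symm : _ →+* QN m).comp (Subfield.inclusion hm)

/-- a finitely generated field of characteristic zero embeds into the complex numbers -/
lemma exists_emb_complex {F : Type} [Field F] [CharZero F] (S : Set F) (hS : S.Finite) :
    Nonempty (Subfield.closure S →+* ℂ) := by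
  have : Countable (Subfield.closure S) := by
    rw [← Cardinal.mk_le_aleph0_iff]
    refine (Subfield.cardinalMk_closure_le_max S).trans ?_
    rw [max_le_iff]
    exact ⟨hS.countable.le_aleph0, le_rfl⟩
  exact Pool.Agent.W552.exists_hom_complex _

end Pool.Agent.L5helper68.BS
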