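import Pool.Agent.L5helper68.BS.Cv

/-! The main equivalences. -/

set_option autoImplicit false

open CategoryTheory AlgebraicGeometry Opposite MvPolynomial

namespace Pool.Agent.L5helper68.BS

variable {H : ℤ → ℤ → Scheme.{0}ᵒᵖ ⥤ AddCommGrpCat.{0}}

lemma smooth_sp {A : Type} [CommRing A] [Algebra ℚ A] (h : Algebra.Smooth ℚ A) :
    Smooth (sm (algebraMap ℚ A)) := by
  rw [HasRingHomProperty.Spec_iff (P := @Smooth)]
  change (algebraMap ℚ A).Smooth
  rw [RingHom.smooth_algebraMap]
  exact h

/-- the complement of the hypersurface `f = 0` in the affine space -/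
lemma open_of (hH : IsMotivicCohomology H) {k j : ℤ} (m : ℕ)
    (h0 : Zero H k j (Sp (QN m)))
    (h1 : ∀ (k' j' : ℤ), k' < 0 → k' ≤ k → j' < j → ∀ (K : Type) [Field K] [CharZero K],
      Zero H k' j' (Sp K)) (hk : k ≤ 0)
    (f : MvPolynomial (Fin m) ℚ) (hf : f ≠ 0) : Zero H k j (Sp (Localization.Away f)) := by
  have hle : Submonoid.powers f ≤ nonZeroDivisors (MvPolynomial (Fin m) ℚ) :=
    powers_le_nonZeroDivisors_of_noZeroDivisors hf
  have : IsDomain (Localization.Away f) := IsLocalization.isDomain_localization hle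
  have hs : Algebra.Smooth ℚ (Localization.Away f) := by
    have h2 : Algebra.Smooth (MvPolynomial (Fin m) ℚ) (Localization.Away f) :=
      Algebra.Smooth.of_isLocalization_Away f
    have h3 : Algebra.Smooth ℚ (MvPolynomial (Fin m) ℚ) := ⟨inferInstance, inferInstance⟩
    exact Algebra.Smooth.comp ℚ (MvPolynomial (Fin m) ℚ) (Localization.Away f)
  let ψ : Localization.Away f →+* QN m := IsLocalization.lift (M := Submonoid.powers f)
    (g := algebraMap (MvPolynomial (Fin m) ℚ) (QN m)) (fun y => by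
      rw [isUnit_iff_ne_zero]
      exact IsFractionRing.to_map_ne_zero_of_mem_nonZeroDivisors (hle y.2))
  have hψ : Function.Injective ψ := by
    rw [injective_iff_map_eq_zero]
    intro a ha
    obtain ⟨b, s, rfl⟩ := IsLocalization.exists_mk'_eq (Submonoid.powers f) a
    rw [IsLocalization.lift_mk'_spec] at ha
    rw [mul_zero] at ha
    have : b = 0 := (IsFractionRing.injective (MvPolynomial (Fin m) ℚ) (QN m)) (by rw [ha, map_zero])
    rw [this, IsLocalization.mk'_zero]
  let X : Over (Sp ℚ) := Over.mk (sm (algebraMap ℚ (Localization.Away f)))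
  have hX : Zero H k j X.left := by
    refine hH.coniveau ℚ k j X (smooth_sp hs) (by change QuasiCompact (sm _); infer_instance)
      (by change IsSeparated (sm _); infer_instance) fun x p hp => ?_
    rcases Nat.eq_zero_or_pos p with rfl | hp0
    · obtain ⟨φ⟩ := exists_residue_hom ψ hψ x hp
      have := charZero_residue X x
      have h3 := Zero.of_hom hH (F := X.left.residueField x) φ h0
      have e1 : k - 2 * ((0 : ℕ) : ℤ) = k := by simp
      have e2 : j - ((0 : ℕ) : ℤ) = j := by simp
      rw [e1, e2]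
      exact h3
    · have := charZero_residue X x
      exact h1 (k - 2 * p) (j - p) (by omega) (by omega) (by omega) (X.left.residueField x)
  exact hX

/-- a polynomial with rational coefficients divides the image of one with integer coefficients -/
lemma exists_int {m : ℕ} (f : MvPolynomial (Fin m) ℚ) :
    ∃ (g : MvPolynomial (Fin m) ℤ) (c : ℚ), c ≠ 0 ∧
      MvPolynomial.map (Int.castRingHom ℚ) g = C c * f := by
  have h1 : ∀ p : MvPolynomial (Fin m) ℚ, ∃ (g : MvPolynomial (Fin m) ℤ) (n : ℕ), n ≠ 0 ∧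
      MvPolynomial.map (Int.castRingHom ℚ) g = C (n : ℚ) * p := by
    intro p
    induction p using MvPolynomial.induction_on with
    | C a =>
      refine ⟨C a.num, a.den, a.den_nz, ?_⟩
      rw [map_C, ← C_mul, Rat.den_mul_eq_num]
      simp
    | add p q hp hq =>
      obtain ⟨g, n, hn, hg⟩ := hp
      obtain ⟨g', n', hn', hg'⟩ := hq
      refine ⟨C (n' : ℤ) * g + C (n : ℤ) * g', n * n', mul_ne_zero hn hn', ?_⟩
      simp only [map_add, map_mul, hg, hg', map_C]
      push_cast
      simp only [C_mul, Int.coe_castRingHom, Int.cast_natCast]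
      ring
    | mul_X p i hp =>
      obtain ⟨g, n, hn, hg⟩ := hp
      exact ⟨g * X i, n, hn, by rw [map_mul, hg, map_X]; ring⟩
  obtain ⟨g, n, hn, hg⟩ := h1 f
  exact ⟨g, n, by exact_mod_cast hn, hg⟩

/-- the vanishing for the linear sections of the general linear groups gives that for the rational
function fields -/
lemma qn_of_sections (hH : IsMotivicCohomology H) {k j : ℤ} (m : ℕ)
    (h : ∀ (N : ℕ) (M : Matrix (Fin N) (Fin N) (MvPolynomial (Fin m) ℚ)),
      (∀ a b, IsEntry (M a b)) → M.det ≠ 0 → Zero H k j (Sp (Localization.Away M.det))) :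
    Zero H k j (Sp (QN m)) := by
  intro z
  obtain ⟨f, hf, hz⟩ := hH.generic k j m z
  obtain ⟨g, c, hc, hg⟩ := exists_int f
  obtain ⟨N, M, hM, hdet⟩ := exists_det (rep_int (R := ℚ) g)
  have h0 : M.det ≠ 0 := by
    rw [hdet, hg, neg_ne_zero]
    exact mul_ne_zero (by simpa using hc) hf
  have hu : IsUnit (-C c : MvPolynomial (Fin m) ℚ) := by
    rw [← C_neg]
    exact (isUnit_iff_ne_zero.2 (neg_ne_zero.2 hc)).map C
  have hA : IsLocalization.Away f (Localization.Away M.det) := by
    have e : Associated f M.det := by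
      refine ⟨hu.unit, ?_⟩
      rw [hdet, hg, IsUnit.unit_spec]; ring
    exact IsLocalization.Away.of_associated (S := Localization.Away M.det) e.symm
  have hle : Submonoid.powers M.det ≤ nonZeroDivisors (MvPolynomial (Fin m) ℚ) :=
    powers_le_nonZeroDivisors_of_noZeroDivisors h0
  let ψ : Localization.Away M.det →+* QN m := IsLocalization.lift (M := Submonoid.powers M.det)
    (g := algebraMap (MvPolynomial (Fin m) ℚ) (QN m)) (fun y => by
      rw [isUnit_iff_ne_zero]
      exact IsFractionRing.to_map_ne_zero_of_mem_nonZeroDivisors (hle y.2))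
  obtain ⟨w, rfl⟩ := hz (Localization.Away M.det) ψ (IsLocalization.lift_comp _)
  rw [h N M hM h0 w, map_zero]

variable (H) in
/-- `H^k(X, ℚ(j)) = 0` for smooth projective complex `X`, `k < 0` and `j ≤ J` -/
def BSProjective (J : ℤ) : Prop :=
  ∀ X : Over (Sp ℂ), SmoothProjective X → ∀ k j : ℤ, k < 0 → j ≤ J → Zero H k j X.left

variable (H) in
/-- the same for smooth varieties over all fields of characteristic zero -/
def BSSmooth (J : ℤ) : Prop :=
  ∀ (F : Type) [Field F] [CharZero F] (X : Over (Sp F)), Smooth X.hom → QuasiCompact X.hom →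
    IsSeparated X.hom → ∀ k j : ℤ, k < 0 → j ≤ J → Zero H k j X.left

variable (H) in
/-- `H^k(U, ℚ(j)) = 0` for `k ≤ 0 < j ≤ J` for the open subvarieties `U = {t : det M(t) ≠ 0}` of the
affine spaces over `ℚ`, where the entries of the square matrix `M` are `0`, `1`, `-1` or variables -/
def BSSections (J : ℤ) : Prop :=
  ∀ (m N : ℕ) (M : Matrix (Fin N) (Fin N) (MvPolynomial (Fin m) ℚ)),
    (∀ a b, IsEntry (M a b)) → M.det ≠ 0 →
    ∀ k j : ℤ, k ≤ 0 → 0 < j → j ≤ J → Zero H k j (Sp (Localization.Away M.det))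

/-- **The conjecture of Beilinson and Soulé, weight by weight.** -/
theorem main (hH : IsMotivicCohomology H) (J : ℤ) : List.TFAE [
    BSProjective H J,
    ∀ k j : ℤ, k < 0 → j ≤ J → Zero H k j (Sp ℂ),
    BSSmooth H J,
    ∀ k j : ℤ, k ≤ 0 → 0 < j → j ≤ J + 1 → Zero H k j (Sp QInf),
    BSSections H (J + 1)] := by
  have hF2 : (∀ k j : ℤ, k < 0 → j ≤ J → Zero H k j (Sp ℂ)) →
      ∀ k j : ℤ, k < 0 → j ≤ J → ∀ (F : Type) [Field F] [CharZero F], Zero H k j (Sp F) :=
    fun h k j hk hj F _ _ => field_of_complex hH (h k j hk hj) F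
  have hF4 : (∀ m, ∀ k j : ℤ, k ≤ 0 → 0 < j → j ≤ J + 1 → Zero H k j (Sp (QN m))) →
      ∀ k j : ℤ, k < 0 → j ≤ J → ∀ (F : Type) [Field F] [CharZero F], Zero H k j (Sp F) := by
    intro h k j hk hj F _ _
    rcases lt_or_ge j 0 with h0 | h0
    · exact hH.negative k j F h0
    · exact field_of_qn hH (fun m => h m (k + 1) (j + 1) (by omega) (by omega) (by omega)) F
  have h4F : (∀ k j : ℤ, k < 0 → j ≤ J → ∀ (F : Type) [Field F] [CharZero F],
      Zero H k j (Sp F)) → ∀ m, ∀ k j : ℤ, k ≤ 0 → 0 < j → j ≤ J + 1 → Zero H k j (Sp (QN m)) := by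
    intro h m k j hk hj0 hj
    have := qn_of_field hH (k := k - 1) (j := j - 1) (by omega) (by omega)
      (fun F _ _ => h (k - 1) (j - 1) (by omega) (by omega) F) m
    rw [sub_add_cancel, sub_add_cancel] at this
    exact this
  tfae_have 1 → 2 := fun h k j hk hj => h _ (point_smoothProjective ℂ) k j hk hj
  tfae_have 2 → 3 := by
    intro h F _ _ X h1 h2 h3 k j hk hj
    exact smooth_of_field hH (fun k' j' hk' hj' K _ _ => hF2 h k' j' (by omega) (by omega) K)
      X h1 h2 h3
  tfae_have 3 → 1 := by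
    intro h X hX k j hk hj
    have := hX.proper
    exact h ℂ X hX.smooth inferInstance inferInstance k j hk hj
  tfae_have 2 → 4 := by
    intro h k j hk hj0 hj
    exact qInf_of_qn hH fun m => h4F (hF2 h) m k j hk hj0 hj
  tfae_have 4 → 5 := by
    intro h m N M hM hdet k j hk hj0 hj
    refine open_of hH m (qn_of_qInf hH (h k j hk hj0 hj) m) (fun k' j' hk' _ hj' K _ _ => ?_) hk _
      hdet
    exact hF4 (fun m k j hk hj0 hj => qn_of_qInf hH (h k j hk hj0 hj) m) k' j' hk' (by omega) K
  tfae_have 5 → 2 := by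
    intro h k j hk hj
    exact hF4 (fun m k j hk hj0 hj => qn_of_sections hH m fun N M hM hdet =>
      h m N M hM hdet k j hk hj0 hj) k j hk hj ℂ
  tfae_finish

/-- **Weight two.** -/
theorem weight_two (hH : IsMotivicCohomology H) : BSSections H 2 := by
  have h2 : ∀ k j : ℤ, k < 0 → j ≤ 1 → Zero H k j (Sp ℂ) := by
    intro k j hk hj
    rcases lt_or_ge j 0 with h0 | h0
    · exact hH.negative k j ℂ h0
    · rcases (show j = 0 ∨ j = 1 by omega) with rfl | rfl
      · exact (hH.low k ℂ hk).1
      · exact (hH.low k ℂ hk).2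
  exact ((main hH 1).out 1 4 rfl rfl).1 h2

end Pool.Agent.L5helper68.BS
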