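import Mathlib

/-! The point `Spec k` is a closed subscheme of a projective space. -/

set_option autoImplicit false

open CategoryTheory AlgebraicGeometry

namespace Pool.Agent.L5helper68.BS

attribute [local instance] MvPolynomial.gradedAlgebra

/-- The projective space of dimension `n` over `k`. -/
noncomputable def projSpace (k : Type) [Field k] (n : ℕ) : Over (Spec (CommRingCat.of k)) :=
  Over.mk (Proj.toSpecZero (MvPolynomial.homogeneousSubmodule (Fin (n + 1)) k) ≫
    Spec.map (CommRingCat.ofHom
      (algebraMap k (MvPolynomial.homogeneousSubmodule (Fin (n + 1)) k 0))))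

/-- `X` is smooth and projective over `k`: it has a closed immersion into some projective space. -/
structure SmoothProjective {k : Type} [Field k] (X : Over (Spec (CommRingCat.of k))) : Prop where
  smooth : Smooth X.hom
  proper : IsProper X.hom
  projective : ∃ (n : ℕ) (i : X ⟶ projSpace k n), IsClosedImmersion i.left

/-- the value of a homogeneous fraction `a / x_0 ^ e` at the point `(1, …, 1)` -/
noncomputable def evalAway (k : Type) [Field k] (n : ℕ) :
    HomogeneousLocalization.Away (MvPolynomial.homogeneousSubmodule (Fin (n + 1)) k)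
      (MvPolynomial.X 0) →+* k :=
  (Localization.awayLift (MvPolynomial.eval (fun _ => (1 : k)))
    (MvPolynomial.X 0 : MvPolynomial (Fin (n + 1)) k) (by simp)).comp
    (algebraMap (HomogeneousLocalization.Away (MvPolynomial.homogeneousSubmodule (Fin (n + 1)) k)
      (MvPolynomial.X 0)) (Localization.Away (MvPolynomial.X 0 : MvPolynomial (Fin (n + 1)) k)))

lemma evalAway_comp (k : Type) [Field k] (n : ℕ) :
    ((evalAway k n).comp (HomogeneousLocalization.fromZeroRingHom
      (MvPolynomial.homogeneousSubmodule (Fin (n + 1)) k) _)).comp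
      (algebraMap k (MvPolynomial.homogeneousSubmodule (Fin (n + 1)) k 0)) = RingHom.id k := by
  ext a
  simp only [evalAway, RingHom.comp_apply, HomogeneousLocalization.algebraMap_apply,
    RingHom.id_apply]
  have h : (HomogeneousLocalization.fromZeroRingHom
      (MvPolynomial.homogeneousSubmodule (Fin (n + 1)) k)
      (Submonoid.powers (MvPolynomial.X 0 : MvPolynomial (Fin (n + 1)) k))
      (algebraMap k (MvPolynomial.homogeneousSubmodule (Fin (n + 1)) k 0) a)).val =
      algebraMap (MvPolynomial (Fin (n + 1)) k) _ (MvPolynomial.C a) := by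
    rw [← Localization.mk_one_eq_algebraMap]
    rfl
  rw [h]
  simp [Localization.awayLift, IsLocalization.Away.lift]

lemma X_mem (k : Type) [Field k] (n : ℕ) :
    (MvPolynomial.X 0 : MvPolynomial (Fin (n + 1)) k) ∈
      MvPolynomial.homogeneousSubmodule (Fin (n + 1)) k 1 :=
  (MvPolynomial.mem_homogeneousSubmodule _ _).2 (MvPolynomial.isHomogeneous_X k 0)

/-- a rational point of the projective space -/
noncomputable def pt (k : Type) [Field k] (n : ℕ) :
    Spec (CommRingCat.of k) ⟶ Proj (MvPolynomial.homogeneousSubmodule (Fin (n + 1)) k) :=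
  Spec.map (CommRingCat.ofHom (evalAway k n)) ≫
    Proj.awayι (MvPolynomial.homogeneousSubmodule (Fin (n + 1)) k) (MvPolynomial.X 0)
      (X_mem k n) one_pos

lemma pt_comp (k : Type) [Field k] (n : ℕ) : pt k n ≫ (projSpace k n).hom = 𝟙 _ := by
  change (_ ≫ _) ≫ (_ ≫ _) = _
  rw [Category.assoc, Proj.awayι_toSpecZero_assoc, ← Spec.map_comp, ← Spec.map_comp,
    ← Spec.map_id]
  congr 1
  rw [← CommRingCat.ofHom_comp, ← CommRingCat.ofHom_comp]
  have := evalAway_comp k n
  rw [RingHom.comp_assoc] at this
  rw [this]
  rfl

theorem point_smoothProjective (k : Type) [Field k] :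
    SmoothProjective (Over.mk (𝟙 (Spec (CommRingCat.of k)))) where
  smooth := by change Smooth (𝟙 _); infer_instance
  proper := by change IsProper (𝟙 _); infer_instance
  projective := by
    refine ⟨0, Over.homMk (pt k 0) (pt_comp k 0), ?_⟩
    change IsClosedImmersion (pt k 0)
    have h0 : IsClosedImmersion (pt k 0 ≫ (projSpace k 0).hom) := by
      rw [pt_comp]; infer_instance
    have h1 : IsSeparated (Proj.toSpecZero (MvPolynomial.homogeneousSubmodule (Fin (0 + 1)) k)) :=
      Proj.isSeparated _
    have h2 : IsSeparated (Spec.map (CommRingCat.ofHom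
      (algebraMap k (MvPolynomial.homogeneousSubmodule (Fin (0 + 1)) k 0)))) := inferInstance
    have h3 : IsSeparated (projSpace k 0).hom :=
      MorphismProperty.comp_mem _ _ _ h1 h2
    exact @IsClosedImmersion.of_comp _ _ _ (pt k 0) (projSpace k 0).hom h0 h3

end Pool.Agent.L5helper68.BS
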