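import Pool.Agent.L5helper68.BS.Fg
import Pool.Agent.L5helper68.BS.Pt

/-!
# The vanishing conjecture of Beilinson and Soulé and rational function fields
-/

set_option autoImplicit false

open CategoryTheory AlgebraicGeometry Opposite

namespace Pool.Agent.L5helper68.BS

/-- the spectrum of a commutative ring -/
noncomputable abbrev Sp (A : Type) [CommRing A] : Scheme.{0} := Spec (CommRingCat.of A)

/-- the morphism of spectra -/
noncomputable abbrev sm {A B : Type} [CommRing A] [CommRing B] (φ : A →+* B) : Sp B ⟶ Sp A :=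
  Spec.map (CommRingCat.ofHom φ)

/-- `H k j` is the functor `X ↦ H^k(X, ℚ(j))`; `Zero H k j X` means that `H^k(X, ℚ(j)) = 0`. -/
def Zero (H : ℤ → ℤ → Scheme.{0}ᵒᵖ ⥤ AddCommGrpCat.{0}) (k j : ℤ) (X : Scheme.{0}) : Prop :=
  ∀ z : (H k j).obj (op X), z = 0

/-- the exact sequence
`0 → H^{k+1}(F, ℚ(j+1)) → H^{k+1}(F(t), ℚ(j+1)) → ⨁ H^k(F[t]/(f), ℚ(j)) → 0` -/
def HasResidues (H : ℤ → ℤ → Scheme.{0}ᵒᵖ ⥤ AddCommGrpCat.{0}) (F : Type) [Field F] : Prop :=
  ∀ k j : ℤ, ∃ d : ∀ f : Polynomial F, Irreducible f →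
    ((H (k + 1) (j + 1)).obj (op (Sp (RatFunc F))) →+ (H k j).obj (op (Sp (AdjoinRoot f)))),
    (∀ f hf, Function.Surjective (d f hf)) ∧
    ∀ z, (∀ f hf, d f hf z = 0) → ∃ w : (H (k + 1) (j + 1)).obj (op (Sp F)),
      (H (k + 1) (j + 1)).map (sm (algebraMap F (RatFunc F))).op w = z

/-- the class `z` on `Spec ℚ(t_1, …, t_m)` extends to a nonempty open subset of the affine space -/
def Extends (H : ℤ → ℤ → Scheme.{0}ᵒᵖ ⥤ AddCommGrpCat.{0}) {k j : ℤ} {m : ℕ}
    (z : (H k j).obj (op (Sp (QN m)))) : Prop :=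
  ∃ f : MvPolynomial (Fin m) ℚ, f ≠ 0 ∧ ∀ (A : Type) [CommRing A]
    [Algebra (MvPolynomial (Fin m) ℚ) A] [IsLocalization.Away f A] (φ : A →+* QN m),
    φ.comp (algebraMap (MvPolynomial (Fin m) ℚ) A) = algebraMap _ _ →
      ∃ w : (H k j).obj (op (Sp A)), (H k j).map (sm φ).op w = z

/-- the coniveau spectral sequence of a smooth variety -/
def HasConiveau (H : ℤ → ℤ → Scheme.{0}ᵒᵖ ⥤ AddCommGrpCat.{0}) (F : Type) [Field F] : Prop :=
  ∀ (k j : ℤ) (X : Over (Sp F)), Smooth X.hom → QuasiCompact X.hom → IsSeparated X.hom →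
    (∀ (x : X.left) (p : ℕ), ringKrullDim (X.left.presheaf.stalk x) = p →
      Zero H (k - 2 * p) (j - p) (Spec (X.left.residueField x))) → Zero H k j X.left

/-- Well known properties of rational motivic cohomology `H^k(X, ℚ(j))` of schemes. -/
structure IsMotivicCohomology (H : ℤ → ℤ → Scheme.{0}ᵒᵖ ⥤ AddCommGrpCat.{0}) : Prop where
  /-- extensions of fields of characteristic zero induce injections (specialization and transfer) -/
  inj : ∀ (k j : ℤ) {F F' : Type} [Field F] [Field F'] [CharZero F] (φ : F →+* F'),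
    Function.Injective ((H k j).map (sm φ).op)
  /-- the cohomology of a field of characteristic zero is the union of the images of that of its
  finitely generated subfields -/
  cont : ∀ (k j : ℤ) (F : Type) [Field F] [CharZero F] (z : (H k j).obj (op (Sp F))),
    ∃ S : Set F, S.Finite ∧ ∃ w : (H k j).obj (op (Sp (Subfield.closure S))),
      (H k j).map (sm (Subfield.closure S).subtype).op w = z
  /-- a class on `Spec ℚ(t_1, …, t_m)` extends to a nonempty open subset of the affine space -/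
  generic : ∀ (k j : ℤ) (m : ℕ) (z : (H k j).obj (op (Sp (QN m)))), Extends H z
  /-- the affine line over a field of characteristic zero -/
  residue : ∀ (F : Type) [Field F] [CharZero F], HasResidues H F
  /-- Borel -/
  borel : ∀ k j : ℤ, k ≤ 0 → 0 < j → Zero H k j (Sp ℚ)
  /-- there is no cohomology in negative weights -/
  negative : ∀ (k j : ℤ) (F : Type) [Field F] [CharZero F], j < 0 → Zero H k j (Sp F)
  /-- `ℚ(0) = ℚ` and `ℚ(1) = G_m[-1] ⊗ ℚ` -/
  low : ∀ (k : ℤ) (F : Type) [Field F] [CharZero F], k < 0 →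
    Zero H k 0 (Sp F) ∧ Zero H k 1 (Sp F)
  /-- the coniveau spectral sequence of a smooth variety -/
  coniveau : ∀ (F : Type) [Field F] [CharZero F], HasConiveau H F

variable {H : ℤ → ℤ → Scheme.{0}ᵒᵖ ⥤ AddCommGrpCat.{0}}

lemma Zero.of_hom (hH : IsMotivicCohomology H) {k j : ℤ} {F F' : Type} [Field F] [Field F']
    [CharZero F] (φ : F →+* F') (h : Zero H k j (Sp F')) : Zero H k j (Sp F) := by
  intro z
  apply hH.inj k j φ
  rw [map_zero]
  exact h _

lemma Zero.of_closure (hH : IsMotivicCohomology H) {k j : ℤ} {F : Type} [Field F] [CharZero F]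
    (h : ∀ S : Set F, S.Finite → Zero H k j (Sp (Subfield.closure S))) : Zero H k j (Sp F) := by
  intro z
  obtain ⟨S, hS, w, rfl⟩ := hH.cont k j F z
  rw [h S hS w, map_zero]

/-- the vanishing for the field of complex numbers gives the vanishing for all fields of
characteristic zero -/
lemma field_of_complex (hH : IsMotivicCohomology H) {k j : ℤ} (h : Zero H k j (Sp ℂ))
    (F : Type) [Field F] [CharZero F] : Zero H k j (Sp F) := by
  refine Zero.of_closure hH fun S hS => ?_
  obtain ⟨φ⟩ := exists_emb_complex S hS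
  exact Zero.of_hom hH φ h

lemma qn_of_qInf (hH : IsMotivicCohomology H) {k j : ℤ} (h : Zero H k j (Sp QInf)) (m : ℕ) :
    Zero H k j (Sp (QN m)) := Zero.of_hom hH (toInf m) h

lemma qInf_of_qn (hH : IsMotivicCohomology H) {k j : ℤ} (h : ∀ m, Zero H k j (Sp (QN m))) :
    Zero H k j (Sp QInf) := by
  refine Zero.of_closure hH fun S hS => ?_
  obtain ⟨m, ⟨φ⟩⟩ := exists_emb_closure S hS
  exact Zero.of_hom hH φ (h m)

lemma closure_closure {F : Type} [Field F] (S : Set F) :
    Subfield.closure (Subtype.val ⁻¹' S : Set (Subfield.closure S)) = ⊤ := by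
  rw [eq_top_iff]
  rintro ⟨x, hx⟩ -
  have key : ∀ y (hy : y ∈ Subfield.closure S), (⟨y, hy⟩ : Subfield.closure S) ∈
      Subfield.closure (Subtype.val ⁻¹' S : Set (Subfield.closure S)) := by
    intro y hy
    induction hy using Subfield.closure_induction with
    | mem x hx =>
      exact Subfield.subset_closure (show (⟨x, _⟩ : Subfield.closure S) ∈ Subtype.val ⁻¹' S from hx)
    | one => exact one_mem (Subfield.closure (Subtype.val ⁻¹' S : Set (Subfield.closure S)))
    | add x y hx hy h1 h2 => exact add_mem h1 h2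
    | neg x hx h1 => exact neg_mem h1
    | inv x hx h1 => exact inv_mem h1
    | mul x y hx hy h1 h2 => exact mul_mem h1 h2
  exact key x hx

lemma ratFunc_of_qn (hH : IsMotivicCohomology H) {k j : ℤ} (m : ℕ)
    (h : Zero H k j (Sp (QN (m + 1)))) : Zero H k j (Sp (RatFunc (QK m))) := by
  have : CharZero (RatFunc (QK m)) :=
    charZero_of_injective_algebraMap (algebraMap (QK m) (RatFunc (QK m))).injective
  exact Zero.of_hom hH ((eqS m).symm : RatFunc (QK m) →+* QN (m + 1)) h

lemma of_residue (hH : IsMotivicCohomology H) {k j : ℤ} {K : Type} [Field K] [CharZero K]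
    (f : Polynomial K) (hf : Irreducible f) {L : Type} [Field L] [CharZero L]
    (φ : L →+* AdjoinRoot f) (h : Zero H (k + 1) (j + 1) (Sp (RatFunc K))) :
    Zero H k j (Sp L) := by
  have : Fact (Irreducible f) := ⟨hf⟩
  have h2 : Zero H k j (Sp (AdjoinRoot f)) := by
    obtain ⟨d, hd, -⟩ := hH.residue K k j
    intro z
    obtain ⟨w, rfl⟩ := hd f hf z
    rw [h w, map_zero]
  exact Zero.of_hom hH φ h2

/-- weight `j + 1` and degree `k + 1` for the rational function fields gives weight `j` and degree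
`k` for all fields of characteristic zero -/
lemma fg_of_qn (hH : IsMotivicCohomology H) {k j : ℤ}
    (h : ∀ m, Zero H (k + 1) (j + 1) (Sp (QN m))) {L : Type} [Field L] [CharZero L] (S : Set L)
    (hS : S.Finite) (hL : Subfield.closure S = ⊤) : Zero H k j (Sp L) := by
  obtain ⟨m, f, hf, ⟨φ⟩⟩ := exists_adjoinRoot S hS hL
  have h1 := ratFunc_of_qn hH m (h (m + 1))
  exact of_residue hH f hf φ h1

lemma field_of_qn (hH : IsMotivicCohomology H) {k j : ℤ}
    (h : ∀ m, Zero H (k + 1) (j + 1) (Sp (QN m))) (F : Type) [Field F] [CharZero F] :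
    Zero H k j (Sp F) := by
  refine Zero.of_closure hH fun S hS => ?_
  have h1 : (Subtype.val ⁻¹' S : Set (Subfield.closure S)).Finite :=
    hS.preimage Subtype.val_injective.injOn
  have h2 := fg_of_qn hH h (Subtype.val ⁻¹' S : Set (Subfield.closure S)) h1 (closure_closure S)
  exact h2

/-- the converse -/
lemma qn_of_field (hH : IsMotivicCohomology H) {k j : ℤ} (hk : k + 1 ≤ 0) (hj : 0 < j + 1)
    (h : ∀ (F : Type) [Field F] [CharZero F], Zero H k j (Sp F)) :
    ∀ m, Zero H (k + 1) (j + 1) (Sp (QN m)) := by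
  intro m
  induction m with
  | zero =>
    refine Zero.of_closure hH fun S hS => ?_
    have e : QN 0 →+* ℚ := IsFractionRing.lift (A := MvPolynomial (Fin 0) ℚ)
      (g := (MvPolynomial.isEmptyRingEquiv ℚ (Fin 0) : MvPolynomial (Fin 0) ℚ →+* ℚ))
      (MvPolynomial.isEmptyRingEquiv ℚ (Fin 0)).injective
    exact Zero.of_hom hH (e.comp (Subfield.closure S).subtype) (hH.borel _ _ hk hj)
  | succ m ih =>
    refine Zero.of_hom hH (toS m) ?_
    obtain ⟨d, -, hd⟩ := hH.residue (QK m) k j
    intro z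
    have h0 : ∀ f hf, d f hf z = 0 := by
      intro f hf
      have : Fact (Irreducible f) := ⟨hf⟩
      have : CharZero (AdjoinRoot f) :=
        charZero_of_injective_algebraMap (algebraMap (QK m) (AdjoinRoot f)).injective
      exact h (AdjoinRoot f) _
    obtain ⟨w, rfl⟩ := hd z h0
    have ih' : Zero H (k + 1) (j + 1) (Sp (QK m)) :=
      Zero.of_hom hH ((qk m : QK m ≃+* QN m) : QK m →+* QN m) ih
    rw [ih' w, map_zero]

end Pool.Agent.L5helper68.BS
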